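import Pool.Agent.H7.KSAT.S1Defs

/-!
# Information inside an event determined by the variable and the condition
-/

set_option autoImplicit false

namespace Pool.KSAT

open Finset Real
open Pool.Agent.H49.Ent Pool.Agent.H32.Dense Pool.STK

namespace RES2

/-- Conditioning on one more variable is an average over its values. -/
lemma CH_sum {Ω S T κ : Type} [Fintype Ω] [DecidableEq κ] {p : Ω → ℝ} (hp : ∀ ω, 0 ≤ p ω)
    (X : Ω → S) (Z : Ω → T) (A : Ω → κ) :
    CH p X (fun ω => (A ω, Z ω)) =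
      ∑ a ∈ univ.image A, law p A a * CH (cond p A a) X Z := by
  classical
  have h1 : CH p X (fun ω => (A ω, Z ω)) = CH p (fun ω => (X ω, Z ω)) A - CH p Z A := by
    have h2 := CH_chain hp X Z A
    have h3 : CH p X (fun ω => (A ω, Z ω)) = CH p X (fun ω => (Z ω, A ω)) :=
      CH_congr hp (fun ω ω' _ _ h => (Prod.ext_iff.mp h).1)
        (fun ω ω' _ _ h => (Prod.ext_iff.mp h).1)
        (fun ω ω' _ _ h => Prod.ext (Prod.ext_iff.mp h).2 (Prod.ext_iff.mp h).1)
        (fun ω ω' _ _ h => Prod.ext (Prod.ext_iff.mp h).2 (Prod.ext_iff.mp h).1)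
    rw [h3, h2]
    ring
  rw [h1, CH_eq_sum hp, CH_eq_sum hp, ← Finset.sum_sub_distrib]
  refine Finset.sum_congr rfl fun a _ => ?_
  unfold CH
  ring

/-- Chain rule for a variable which is determined by the other two. -/
lemma chain_det {Ω S T U : Type} [Fintype Ω] {p : Ω → ℝ} (hp : ∀ ω, 0 ≤ p ω) (X : Ω → S)
    (Y : Ω → T) (W : Ω → U) (h : Det p (fun ω => (X ω, W ω)) Y) :
    CH p X W = CH p Y W + CH p X (fun ω => (Y ω, W ω)) := by
  rw [← CH_chain hp X Y W]
  refine CH_congr hp ?_ ?_ (fun _ _ _ _ h => h) (fun _ _ _ _ h => h)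
  · intro ω ω' a c e
    exact Prod.ext (Prod.ext_iff.1 e).1 (h ω ω' a c e)
  · intro ω ω' _ _ e
    exact (Prod.ext_iff.1 (Prod.ext_iff.1 e).1).1

end RES2

open RES2 in
theorem res2_thm : RES2Stmt := by
  classical
  intro Ω S T U κ _ p V W Y A a hp hA
  have h0 := hp.nonneg
  have c1 := chain_det h0 V A W hA
  have c2 := chain_det h0 V A (fun ω => (W ω, Y ω)) (fun ω ω' b c e => by
    refine hA ω ω' b c (Prod.ext (Prod.ext_iff.1 e).1 ?_)
    exact (Prod.ext_iff.1 (Prod.ext_iff.1 e).2).1)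
  have c3 : CH p A (fun ω => (W ω, Y ω)) ≤ CH p A W :=
    CH_mono_cond h0 fun ω ω' _ _ e => (Prod.ext_iff.1 e).1
  have c4 := CH_sum h0 V W A
  have c5 := CH_sum h0 V (fun ω => (W ω, Y ω)) A
  have c6 : ∀ b, 0 ≤ law p A b * (CH (cond p A b) V W -
      CH (cond p A b) V (fun ω => (W ω, Y ω))) := by
    intro b
    refine mul_nonneg (law_nonneg h0 A b) (sub_nonneg.2 ?_)
    exact CH_mono_cond (cond_nonneg h0 A b) fun ω ω' _ _ e => (Prod.ext_iff.1 e).1
  have c7 : law p A a * (CH (cond p A a) V W - CH (cond p A a) V (fun ω => (W ω, Y ω))) ≤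
      ∑ b ∈ univ.image A, law p A b * (CH (cond p A b) V W -
        CH (cond p A b) V (fun ω => (W ω, Y ω))) := by
    by_cases ha : a ∈ univ.image A
    · exact Finset.single_le_sum (f := fun b => law p A b * (CH (cond p A b) V W -
        CH (cond p A b) V (fun ω => (W ω, Y ω)))) (fun b _ => c6 b) ha
    · rw [law_eq_zero_of_notMem p A ha, zero_mul]
      exact Finset.sum_nonneg fun b _ => c6 b
  have c8 : ∑ b ∈ univ.image A, law p A b * (CH (cond p A b) V W -
        CH (cond p A b) V (fun ω => (W ω, Y ω))) =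
      CH p V (fun ω => (A ω, W ω)) - CH p V (fun ω => (A ω, (W ω, Y ω))) := by
    rw [c4, c5, ← Finset.sum_sub_distrib]
    exact Finset.sum_congr rfl fun b _ => by ring
  linarith

end Pool.KSAT
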