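import Pool.Agent.H7.KSAT.Defs

/-!
# Integer points in a parallelepiped
-/

set_option autoImplicit false

namespace Pool.Agent.H33.KSAT

open Finset Real Pool.KSAT MeasureTheory

/-- The half-open unit cube with lower corner the integer vector `z`. -/
def cb {k : ℕ} (z : Fin k → ℤ) : Set (Fin k → ℝ) :=
  Set.pi Set.univ fun i => Set.Ico (z i : ℝ) (z i + 1)

lemma cb_meas {k : ℕ} (z : Fin k → ℤ) : MeasurableSet (cb z) :=
  MeasurableSet.univ_pi fun _ => measurableSet_Ico

lemma cb_vol {k : ℕ} (z : Fin k → ℤ) : volume (cb z) = 1 := by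
  unfold cb
  rw [Real.volume_pi_Ico]
  simp

lemma cb_mem {k : ℕ} {z : Fin k → ℤ} {v : Fin k → ℝ} (h : v ∈ cb z) (i : Fin k) :
    ⌊v i⌋ = z i := by
  have := h i (Set.mem_univ i)
  exact Int.floor_eq_iff.2 ⟨this.1, this.2⟩

lemma cb_disj {k : ℕ} (F : Finset (Fin k → ℤ)) :
    (F : Set (Fin k → ℤ)).PairwiseDisjoint cb := by
  intro z _ z' _ hne
  rw [Function.onFun, Set.disjoint_left]
  intro v hv hv'
  exact hne (funext fun i => (cb_mem hv i).symm.trans (cb_mem hv' i))

lemma cb_union {k : ℕ} (F : Finset (Fin k → ℤ)) :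
    volume (⋃ z ∈ F, cb z) = (F.card : ENNReal) := by
  rw [measure_biUnion_finset (cb_disj F) fun z _ => cb_meas z]
  simp [cb_vol]

/-- **Integer points in a parallelepiped.** -/
theorem fib_thm : FibStmt := by
  intro k M y R B hR hB hM hdet F hF
  have hQ : 0 ≤ R + k * B := by positivity
  set Q : ℝ := R + k * B
  set P : Set (Fin k → ℝ) := Set.Icc (fun i => y i - Q) (fun i => y i + Q)
  have hdl : LinearMap.det (Matrix.toLin' M) ≠ 0 := by
    rw [LinearMap.det_toLin']
    exact hdet
  have hsub : (⋃ z ∈ F, cb z) ⊆ (Matrix.toLin' M) ⁻¹' P := by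
    intro v hv
    simp only [Set.mem_iUnion, exists_prop] at hv
    obtain ⟨z, hz, hvz⟩ := hv
    have key : ∀ i, |(Matrix.toLin' M) v i - y i| ≤ Q := by
      intro i
      have h1 := hF z hz i
      have h2 : |∑ l, M i l * (v l - z l)| ≤ k * B := by
        refine (Finset.abs_sum_le_sum_abs _ _).trans ?_
        have : ∑ l, |M i l * (v l - z l)| ≤ ∑ _l : Fin k, B := by
          refine Finset.sum_le_sum fun l _ => ?_
          rw [abs_mul]
          have h3 := hvz l (Set.mem_univ l)
          have h4 : |v l - z l| ≤ 1 := by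
            rw [abs_le]
            constructor
            · linarith [h3.1]
            · linarith [h3.2]
          calc |M i l| * |v l - z l| ≤ B * 1 :=
                mul_le_mul (hM i l) h4 (abs_nonneg _) hB
            _ = B := mul_one B
        simpa using this
      have h5 : (Matrix.toLin' M) v i - y i =
          (∑ l, M i l * (z l : ℝ) - y i) + ∑ l, M i l * (v l - z l) := by
        rw [Matrix.toLin'_apply, Matrix.mulVec, dotProduct]
        have : ∑ l, M i l * v l = ∑ l, M i l * (z l : ℝ) + ∑ l, M i l * (v l - z l) := by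
          rw [← Finset.sum_add_distrib]
          exact Finset.sum_congr rfl fun l _ => by ring
        rw [this]
        ring
      rw [h5]
      exact (abs_add_le _ _).trans (add_le_add h1 h2)
    refine ⟨fun i => ?_, fun i => ?_⟩
    · have := (abs_le.1 (key i)).1
      show y i - Q ≤ (Matrix.toLin' M) v i
      linarith
    · have := (abs_le.1 (key i)).2
      show (Matrix.toLin' M) v i ≤ y i + Q
      linarith
  have hvol := measure_mono (μ := volume) hsub
  rw [cb_union, Measure.addHaar_preimage_linearMap volume hdl, LinearMap.det_toLin',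
    Real.volume_Icc_pi] at hvol
  have hprod : (∏ i : Fin k, ENNReal.ofReal (y i + Q - (y i - Q))) =
      ENNReal.ofReal ((2 * Q) ^ k) := by
    have : ∀ i : Fin k, ENNReal.ofReal (y i + Q - (y i - Q)) = ENNReal.ofReal (2 * Q) := by
      intro i
      congr 1
      ring
    rw [Finset.prod_congr rfl fun i _ => this i]
    simp [ENNReal.ofReal_pow (by positivity : (0 : ℝ) ≤ 2 * Q)]
  rw [hprod, ← ENNReal.ofReal_mul (abs_nonneg _)] at hvol
  have hc : (F.card : ℝ) ≤ |(M.det)⁻¹| * (2 * Q) ^ k := by
    have h1 : (F.card : ENNReal) = ENNReal.ofReal (F.card : ℝ) := by simp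
    rw [h1] at hvol
    exact (ENNReal.ofReal_le_ofReal_iff (by positivity)).1 hvol
  have hpos : 0 < |M.det| := abs_pos.2 hdet
  calc (F.card : ℝ) * |M.det| ≤ (|(M.det)⁻¹| * (2 * Q) ^ k) * |M.det| :=
        mul_le_mul_of_nonneg_right hc hpos.le
    _ = (2 * Q) ^ k := by
        rw [abs_inv]
        field_simp

end Pool.Agent.H33.KSAT
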