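import Pool.Agent.H7.KSAT.Defs

/-!
# Transfer to independent copies
-/

set_option autoImplicit false

namespace Pool.Agent.H33.KSAT

open Finset Real Pool.KSAT
open Pool.Agent.H49.Ent Pool.Agent.H32.Dense Pool.STK

section aux

variable {Ω W β E ι : Type} [Fintype Ω] [Fintype W]

lemma ex_law {S : Type} (p : Ω → ℝ) (q : W → ℝ) (X : Ω → S) (Y : W → S)
    (h : ∀ s, law q Y s = law p X s) (g : S → ℝ) :
    Ex q (fun w => g (Y w)) = Ex p (fun l => g (X l)) := by
  classical
  unfold Ex
  rw [sum_mul_eq_sum_image q Y g, sum_mul_eq_sum_image p X g]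
  have h1 : ∑ s ∈ univ.image Y, law q Y s * g s =
      ∑ s ∈ univ.image Y ∪ univ.image X, law q Y s * g s := by
    refine Finset.sum_subset Finset.subset_union_left fun s _ hs => ?_
    rw [law_eq_zero_of_notMem q Y hs, zero_mul]
  have h2 : ∑ s ∈ univ.image X, law p X s * g s =
      ∑ s ∈ univ.image Y ∪ univ.image X, law p X s * g s := by
    refine Finset.sum_subset Finset.subset_union_right fun s _ hs => ?_
    rw [law_eq_zero_of_notMem p X hs, zero_mul]
  rw [h1, h2]
  exact Finset.sum_congr rfl fun s _ => by rw [h s]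

lemma exists_of_law_pos {S : Type} {p : Ω → ℝ} (hp : ∀ l, 0 ≤ p l) {X : Ω → S} {s : S}
    (h : 0 < law p X s) : ∃ l, 0 < p l ∧ X l = s := by
  classical
  by_contra hne
  push Not at hne
  have : law p X s = 0 := by
    unfold law
    refine Finset.sum_eq_zero fun l _ => ?_
    by_cases h0 : X l = s
    · rw [if_pos h0]
      by_contra h1
      exact hne l (lt_of_le_of_ne (hp l) (Ne.symm h1)) h0
    · rw [if_neg h0]
  exact h.ne' this

lemma law_swap {S T : Type} (p : Ω → ℝ) (X : Ω → S) (Y : Ω → T) (x : S) (y : T) :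
    law p (fun l => (X l, Y l)) (x, y) = law p (fun l => (Y l, X l)) (y, x) := by
  classical
  unfold law
  refine Finset.sum_congr rfl fun l _ => ?_
  by_cases h1 : X l = x <;> by_cases h2 : Y l = y <;> simp [h1, h2]

lemma ex_cond_law {p : Ω → ℝ} (hp : ∀ l, 0 ≤ p l) (D : Ω → E) (b : Ω → β) :
    Ex p (fun l => -Real.log (law (cond p b (b l)) D (D l))) = CH p D b := by
  rw [CH_eq_neg_sum hp]
  unfold Ex
  refine Finset.sum_congr rfl fun l _ => ?_
  simp only
  rw [law_cond]

open Classical in
lemma prod_law [Fintype ι] [DecidableEq ι] (r : Ω → ℝ) (D : Ω → E) (y : ι → E) :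
    ∏ i, law r D (y i) = ∑ v : ι → Ω, if (fun i => D (v i)) = y then ∏ i, r (v i) else 0 := by
  have h1 : ∀ i, law r D (y i) = ∑ ω, if D ω = y i then r ω else 0 := fun i => by
    unfold law
    rfl
  rw [Finset.prod_congr rfl fun i _ => h1 i, Finset.prod_univ_sum, Fintype.piFinset_univ]
  refine Finset.sum_congr rfl fun v _ => ?_
  by_cases h : (fun i => D (v i)) = y
  · rw [if_pos h]
    refine Finset.prod_congr rfl fun i _ => ?_
    rw [if_pos (congrFun h i)]
  · rw [if_neg h]
    obtain ⟨i, hi⟩ := Function.ne_iff.1 h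
    exact Finset.prod_eq_zero (Finset.mem_univ i) (if_neg hi)

lemma sum_prod_one [Fintype ι] [DecidableEq ι] (r : Ω → ℝ) (hr : ∑ ω, r ω = 1) :
    ∑ v : ι → Ω, ∏ i, r (v i) = 1 := by
  classical
  have h := Finset.prod_univ_sum (fun _ : ι => (Finset.univ : Finset Ω)) (fun _ ω => r ω)
  rw [Fintype.piFinset_univ] at h
  rw [← h]
  simp [hr]

open Classical in
lemma kernel_sum [Fintype ι] [DecidableEq ι] (r : Ω → ℝ) (hr0 : ∀ ω, 0 ≤ r ω) (hr : ∑ ω, r ω = 1) (D : Ω → E)
    (A : (ι → E) → Prop) (Q : ℝ) (hQ : 0 < Q)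
    (hA : (∑ v : ι → Ω, if A (fun i => D (v i)) then ∏ i, r (v i) else 0) ≤ Q)
    (F : Finset (ι → E)) :
    ∑ y ∈ F, (1 / 2) * ((∏ i, law r D (y i)) * (if A y then 1 / Q else 1)) ≤ 1 := by
  rw [← Finset.mul_sum]
  have h1 : ∑ y ∈ F, (∏ i, law r D (y i)) * (if A y then 1 / Q else 1) ≤
      ∑ v : ι → Ω, (∏ i, r (v i)) * (if A (fun i => D (v i)) then 1 / Q else 1) := by
    have h2 : ∀ y ∈ F, (∏ i, law r D (y i)) * (if A y then 1 / Q else 1) =
        ∑ v : ι → Ω, if (fun i => D (v i)) = y then
          (∏ i, r (v i)) * (if A (fun i => D (v i)) then 1 / Q else 1) else 0 := by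
      intro y _
      rw [prod_law, Finset.sum_mul]
      refine Finset.sum_congr rfl fun v _ => ?_
      by_cases h : (fun i => D (v i)) = y
      · rw [if_pos h, if_pos h, h]
      · rw [if_neg h, if_neg h, zero_mul]
    rw [Finset.sum_congr rfl h2, Finset.sum_comm]
    refine Finset.sum_le_sum fun v _ => ?_
    rw [Finset.sum_ite_eq]
    have h3 : 0 ≤ (∏ i, r (v i)) * (if A (fun i => D (v i)) then 1 / Q else 1) := by
      refine mul_nonneg (Finset.prod_nonneg fun i _ => hr0 _) ?_
      split_ifs <;> positivity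
    split_ifs
    all_goals first | exact le_rfl | (split_ifs at h3; linarith)
  have h4 : ∑ v : ι → Ω, (∏ i, r (v i)) * (if A (fun i => D (v i)) then 1 / Q else 1) ≤ 2 := by
    have h5 : ∀ v : ι → Ω, (∏ i, r (v i)) * (if A (fun i => D (v i)) then 1 / Q else 1) ≤
        (1 / Q) * (if A (fun i => D (v i)) then ∏ i, r (v i) else 0) + ∏ i, r (v i) := by
      intro v
      have h6 : 0 ≤ ∏ i, r (v i) := Finset.prod_nonneg fun i _ => hr0 _
      by_cases h : A (fun i => D (v i))
      · rw [if_pos h, if_pos h]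
        linarith [mul_comm (∏ i, r (v i)) (1 / Q)]
      · rw [if_neg h, if_neg h]
        linarith
    refine (Finset.sum_le_sum fun v _ => h5 v).trans ?_
    rw [Finset.sum_add_distrib, ← Finset.mul_sum, sum_prod_one r hr]
    have h7 : (1 / Q) * (∑ v : ι → Ω, if A (fun i => D (v i)) then ∏ i, r (v i) else 0) ≤
        (1 / Q) * Q := mul_le_mul_of_nonneg_left hA (by positivity)
    rw [one_div, inv_mul_cancel₀ hQ.ne'] at h7
    rw [one_div]
    linarith
  linarith

end aux

/-- **Transfer to independent copies**, for a nonempty set of indices. -/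
theorem transfer_core (Ω W β E ι : Type) [Fintype Ω] [Fintype W] [Fintype ι]
    [DecidableEq ι] [Nonempty ι] (p : Ω → ℝ) (q : W → ℝ) (D : Ω → E) (b : Ω → β) (Y : ι → W → E) (b0 : W → β) (δ : ℝ)
    (hp : IsLaw p) (hq : IsLaw q)
    (hlaw : ∀ i z, law q (fun w => (b0 w, Y i w)) z = law p (fun l => (b l, D l)) z)
    (hδ : Fintype.card ι * CH p D b - δ ≤ CH q (fun w i => Y i w) b0)
    (A : β → (ι → E) → Prop) (Q : ℝ) (hQ : 0 < Q)
    (hA : ∀ l, 0 < p l → (∑ v : ι → Ω, open Classical in
        if A (b l) (fun i => D (v i)) then ∏ i, cond p b (b l) (v i) else 0) ≤ Q) :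
    (∑ w, open Classical in if A (b0 w) (fun i => Y i w) then q w else 0) *
        Real.log (1 / Q) ≤ δ + Real.log 2 := by
  classical
  set ker : β → (ι → E) → ℝ := fun z y =>
    (1 / 2) * ((∏ i, law (cond p b z) D (y i)) * (if A z y then 1 / Q else 1)) with hker
  have hpos : ∀ w, 0 < q w → ∀ i, 0 < law (cond p b (b0 w)) D (Y i w) := by
    intro w hw i
    have h1 : 0 < law p (fun l => (b l, D l)) (b0 w, Y i w) := by
      rw [← hlaw i]
      exact law_pos hq.nonneg (fun w => (b0 w, Y i w)) hw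
    rw [law_cond, law_swap]
    obtain ⟨l, hl, hbl⟩ := exists_of_law_pos hp.nonneg h1
    have h2 : b l = b0 w := (Prod.ext_iff.1 hbl).1
    have h3 : 0 < law p b (b0 w) := by
      rw [← h2]
      exact law_pos hp.nonneg b hl
    exact div_pos h1 h3
  have hex : ∀ w, 0 < q w → ∃ l, 0 < p l ∧ b l = b0 w := by
    intro w hw
    obtain ⟨i⟩ := (inferInstance : Nonempty ι)
    have h1 : 0 < law p (fun l => (b l, D l)) (b0 w, Y i w) := by
      rw [← hlaw i]
      exact law_pos hq.nonneg (fun w => (b0 w, Y i w)) hw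
    obtain ⟨l, hl, hbl⟩ := exists_of_law_pos hp.nonneg h1
    exact ⟨l, hl, (Prod.ext_iff.1 hbl).1⟩
  have hker0 : ∀ z y, 0 ≤ ker z y := by
    intro z y
    refine mul_nonneg (by norm_num) (mul_nonneg (Finset.prod_nonneg fun i _ =>
      law_nonneg (fun ω => cond_nonneg hp.nonneg b z ω) D _) ?_)
    split_ifs <;> positivity
  have hkerpos : ∀ w, 0 < q w → 0 < ker (b0 w) (fun i => Y i w) := by
    intro w hw
    refine mul_pos (by norm_num) (mul_pos (Finset.prod_pos fun i _ => hpos w hw i) ?_)
    split_ifs <;> positivity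
  have hcross := CH_le_cross hq.nonneg hq.sum_one (fun w i => Y i w) b0 ker hkerpos hker0
    (by
      intro w hw F
      obtain ⟨l, hl, hbl⟩ := hex w hw
      have h1 : ∑ ω, cond p b (b0 w) ω = 1 := by
        refine sum_cond p b ?_
        rw [← hbl]
        exact (law_pos hp.nonneg b hl).ne'
      refine kernel_sum (cond p b (b0 w)) (fun ω => cond_nonneg hp.nonneg b _ ω) h1 D
        (A (b0 w)) Q hQ ?_ F
      have := hA l hl
      rw [hbl] at this
      exact this)
  have hlog : ∀ w, 0 < q w → -Real.log (ker (b0 w) (fun i => Y i w)) =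
      Real.log 2 + ∑ i, (-Real.log (law (cond p b (b0 w)) D (Y i w))) -
        (if A (b0 w) (fun i => Y i w) then 1 else 0) * Real.log (1 / Q) := by
    intro w hw
    have h1 : (∏ i, law (cond p b (b0 w)) D (Y i w)) ≠ 0 :=
      (Finset.prod_pos fun i _ => hpos w hw i).ne'
    have h2 : (if A (b0 w) (fun i => Y i w) then 1 / Q else 1) ≠ 0 := by
      split_ifs <;> positivity
    rw [hker]
    simp only
    rw [Real.log_mul (by norm_num) (mul_ne_zero h1 h2), Real.log_mul h1 h2,
      Real.log_prod fun i _ => (hpos w hw i).ne']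
    have h3 : Real.log (1 / 2) = -Real.log 2 := by
      rw [one_div, Real.log_inv]
    rw [h3, Finset.sum_neg_distrib]
    by_cases h : A (b0 w) (fun i => Y i w)
    · simp only [h, if_true]
      ring
    · simp only [h, if_false, Real.log_one]
      ring
  have hE : Ex q (fun w => -Real.log (ker (b0 w) (fun i => Y i w))) =
      Real.log 2 + Fintype.card ι * CH p D b -
        (∑ w, if A (b0 w) (fun i => Y i w) then q w else 0) * Real.log (1 / Q) := by
    have e1 : Ex q (fun w => -Real.log (ker (b0 w) (fun i => Y i w))) =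
        Ex q (fun w => Real.log 2 + ∑ i, (-Real.log (law (cond p b (b0 w)) D (Y i w))) -
          (if A (b0 w) (fun i => Y i w) then 1 else 0) * Real.log (1 / Q)) := by
      unfold Ex
      refine Finset.sum_congr rfl fun w _ => ?_
      rcases (hq.nonneg w).eq_or_lt with h0 | h0
      · rw [← h0, zero_mul, zero_mul]
      · simp only
        rw [hlog w h0]
    rw [e1, Ex_sub, Ex_add, Ex_const hq.sum_one]
    have e2 : Ex q (fun w => ∑ i, (-Real.log (law (cond p b (b0 w)) D (Y i w)))) =
        Fintype.card ι * CH p D b := by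
      have e3 : Ex q (fun w => ∑ i, (-Real.log (law (cond p b (b0 w)) D (Y i w)))) =
          ∑ i, Ex q (fun w => -Real.log (law (cond p b (b0 w)) D (Y i w))) := by
        unfold Ex
        rw [Finset.sum_comm]
        refine Finset.sum_congr rfl fun w _ => ?_
        rw [Finset.mul_sum]
      rw [e3]
      have e4 : ∀ i : ι, Ex q (fun w => -Real.log (law (cond p b (b0 w)) D (Y i w))) =
          CH p D b := by
        intro i
        have := ex_law p q (fun l => (b l, D l)) (fun w => (b0 w, Y i w)) (hlaw i)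
          (fun s => -Real.log (law (cond p b s.1) D s.2))
        rw [← ex_cond_law hp.nonneg D b]
        exact this
      rw [Finset.sum_congr rfl fun i _ => e4 i]
      simp
    have e5 : Ex q (fun w => (if A (b0 w) (fun i => Y i w) then 1 else 0) * Real.log (1 / Q)) =
        (∑ w, if A (b0 w) (fun i => Y i w) then q w else 0) * Real.log (1 / Q) := by
      unfold Ex
      rw [Finset.sum_mul]
      refine Finset.sum_congr rfl fun w _ => ?_
      by_cases h : A (b0 w) (fun i => Y i w)
      · simp [h]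
      · simp [h]
    rw [e2, e5]
  rw [hE] at hcross
  linarith

theorem transfer_thm : TransferStmt := by
  intro Ω W β E ι _ _ _ _ _ p q D b Y b0 δ hp hq hlaw hδ A Q hQ hA
  exact transfer_core Ω W β E ι p q D b Y b0 δ hp hq hlaw hδ A Q hQ hA

end Pool.Agent.H33.KSAT
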